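import Pool.Agent.LE.StmtsR
import Pool.Agent.Helper15_LE.NOE

/-!
# Row NXI: from the site `0` and fixed constants to all eigenfunctions, upper bound for the rate
-/

set_option autoImplicit false

open MeasureTheory Function

open scoped ENNReal BigOperators

noncomputable section

namespace Pool.Agent.LE.H69

open Pool.Agent.Anderson Pool.Agent.Loc Pool.Agent.Helper54.Bal
  Pool.Agent.Helper96.EXP Pool.Agent.LE Pool.Agent.LE.H15

theorem nxi : NxiStmt := by
  intro d σ γ hγ hnull
  have h1 : ∀ p : Site d × ℕ × ℚ, ∀ᵐ V ∂(PP d (gl σ)), 0 < p.2.2 →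
      ¬ (∃ E ∈ Set.Icc (-(p.2.1 : ℝ)) p.2.1, γ E < (p.2.2 : ℝ) ∧
        ∃ n, Sol (p.2.1 : ℝ) (p.2.2 : ℝ) (tau p.1 V) E n ∧ lapR n 0 + tau p.1 V 0 = E) := by
    rintro ⟨y, k, q⟩
    by_cases hq : 0 < q
    · have h2 := hnull (k : ℝ) (q : ℝ) (Set.Icc (-(k : ℝ)) k) (by exact_mod_cast hq)
        isCompact_Icc
      have h3 := (shiftInv_PP (d := d) (gl σ) y).quasiMeasurePreserving.preimage_null h2
      have h4 : ∀ᵐ V ∂(PP d (gl σ)), ¬ (∃ E ∈ Set.Icc (-(k : ℝ)) k, γ E < (q : ℝ) ∧
        ∃ n, Sol (k : ℝ) (q : ℝ) (tau y V) E n ∧ lapR n 0 + tau y V 0 = E) := by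
        rw [ae_iff]
        simp only [not_not]
        exact h3
      filter_upwards [h4] with V hV _
      exact hV
    · exact Filter.Eventually.of_forall fun V h => absurd h hq
  have h2 := ae_all_iff.2 h1
  filter_upwards [h2] with V hV E ψ hψ B m hm hB x
  obtain ⟨q, hq1, hq2⟩ := exists_rat_btwn hm
  have hq0 : 0 < q := by
    have := (hγ E).trans_lt hq1
    exact_mod_cast this
  have hm0 : 0 < m := (hγ E).trans_lt hm
  by_contra hx
  have key : ∀ φ : Site d → ℝ, (∀ x, lapR φ x + V x * φ x = E * φ x) →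
      (∀ x, |φ x| ≤ B * Real.exp (-m * sd 0 x)) → φ x ≠ 0 → False := by
    intro φ e1 e2 e3
    obtain ⟨C, n, s1, s2⟩ := sol_of_real hm0 e1 e2 e3
    obtain ⟨k, hk⟩ := exists_nat_ge (max C |E|)
    refine hV (x, k, q) hq0 ⟨E, ?_, hq1, n, sol_mono s1 ((le_max_left _ _).trans hk) hq2.le, s2⟩
    have := (le_max_right _ _).trans hk
    exact abs_le.1 this
  have hre : ∀ y, (lap ψ y).re = lapR (fun z => (ψ z).re) y := by
    intro y
    unfold lap lapR
    rw [Complex.re_sum]
    exact Finset.sum_congr rfl fun i _ => Complex.add_re _ _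
  have him : ∀ y, (lap ψ y).im = lapR (fun z => (ψ z).im) y := by
    intro y
    unfold lap lapR
    rw [Complex.im_sum]
    exact Finset.sum_congr rfl fun i _ => Complex.add_im _ _
  rcases Complex.ext_iff.not.1 hx with hx'
  rw [Complex.zero_re, Complex.zero_im, not_and_or] at hx'
  rcases hx' with h | h
  · refine key (fun z => (ψ z).re) ?_ ?_ h
    · intro y
      have := congrArg Complex.re (hψ y)
      rw [Complex.add_re, Complex.re_ofReal_mul, Complex.re_ofReal_mul, hre] at this
      exact this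
    · intro y
      exact (Complex.abs_re_le_norm _).trans (hB y)
  · refine key (fun z => (ψ z).im) ?_ ?_ h
    · intro y
      have := congrArg Complex.im (hψ y)
      rw [Complex.add_im, Complex.im_ofReal_mul, Complex.im_ofReal_mul, him] at this
      exact this
    · intro y
      exact (Complex.abs_im_le_norm _).trans (hB y)

end Pool.Agent.LE.H69
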