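import Pool.Agent.Helper96_LE.Lsc

/-!
# Row MES: measurability of the Lyapunov exponent
-/

set_option autoImplicit false

namespace Pool.Agent.LE.H69

open Pool.Agent.Anderson Pool.Agent.Loc Pool.Agent.Helper54.Bal
  Pool.Agent.Helper96.EXP Pool.Agent.LE

theorem mes (smp : SmpStmt) (smn : SmnStmt) (alg : AlgStmt) : MesStmt := by
  intro d σ γ hd hσ hγ c
  exact (Pool.Agent.LE.H96.lsc smp smn alg d σ γ hd hσ hγ).measurable measurableSet_Iio

end Pool.Agent.LE.H69
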