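import Pool.Agent.LE.StmtsA

/-!
# Shifts at a distance `nℓ` of an almost subadditive random function
-/

set_option autoImplicit false
set_option linter.unusedSectionVars false

open MeasureTheory ProbabilityTheory Function

open scoped ENNReal BigOperators

noncomputable section

namespace Pool.Agent.LE.H69

open Pool.Agent.Anderson Pool.Agent.Loc Pool.Agent.Mob Pool.Agent.Helper54.Bal

variable {d : ℕ}

theorem sd_add' (a b : Site d) : sd a (a + b) = sd 0 b := by
  apply le_antisymm
  · rw [sd_le_iff]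
    intro i
    have h := (sd_le_iff.1 (le_refl (sd 0 b))) i
    have e : a i - (a + b) i = (0 : Site d) i - b i := by
      rw [Pi.add_apply, Pi.zero_apply]
      ring
    rwa [e]
  · rw [sd_le_iff]
    intro i
    have h := (sd_le_iff.1 (le_refl (sd a (a + b)))) i
    have e : (0 : Site d) i - b i = a i - (a + b) i := by
      rw [Pi.add_apply, Pi.zero_apply]
      ring
    rwa [e]

theorem sd_sm (l : ℕ) (y : Site d) : sd 0 (sm l y) ≤ l * sd 0 y := by
  rw [sd_le_iff]
  intro i
  have h := (sd_le_iff.1 (le_refl (sd 0 y))) i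
  have e : (0 : Site d) i - sm l y i = l * ((0 : Site d) i - y i) := by
    unfold sm
    rw [Pi.zero_apply]
    ring
  rw [e, abs_mul, Nat.abs_cast]
  push_cast
  exact mul_le_mul_of_nonneg_left h (by positivity)

section

variable {N : ℕ} {Ω : Type} [MeasurableSpace Ω] {P : Measure Ω} [IsProbabilityMeasure P] {C : ℝ}
  {D : Ω → Site d → Site d → ℝ} (h : FamN d N P C D)

include h

theorem integrable_D {x y : Site d} (hx : x ∈ box (0 : Site d) N) (hy : y ∈ box (0 : Site d) N) :
    Integrable (fun ω => D ω x y) P :=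
  ((memLp_two_iff_integrable_sq (h.meas x y).aestronglyMeasurable).2
    (h.int x hx y hy)).integrable one_le_two

/-- first moment from the second one, with a weight -/
theorem abs_le_wt {x y : Site d} (hx : x ∈ box (0 : Site d) N) (hy : y ∈ box (0 : Site d) N)
    {s : ℝ} (hs : 0 < s) : ∫ ω, |D ω x y| ∂P ≤ s + C * ((sd x y : ℝ) + 1) ^ 2 / s := by
  calc ∫ ω, |D ω x y| ∂P ≤ ∫ ω, (s + D ω x y ^ 2 / s) ∂P := by
        refine integral_mono (integrable_D h hx hy).abs
          ((integrable_const _).add ((h.int x hx y hy).div_const _)) fun ω => ?_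
        simp only
        have h1 : |D ω x y| ^ 2 = D ω x y ^ 2 := sq_abs _
        have h2 : s + D ω x y ^ 2 / s - |D ω x y| =
            ((|D ω x y| - s) ^ 2 + s * |D ω x y|) / s := by
          rw [← h1]
          field_simp
          ring
        have h3 : 0 ≤ ((|D ω x y| - s) ^ 2 + s * |D ω x y|) / s := by positivity
        linarith
    _ = s + (∫ ω, D ω x y ^ 2 ∂P) / s := by
        rw [integral_add (integrable_const _) ((h.int x hx y hy).div_const _), integral_div]
        simp
    _ ≤ _ := by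
        have := h.sq x hx y hy
        gcongr

/-- the defect of subadditivity -/
theorem defect_int {x u y : Site d} (hx : x ∈ box (0 : Site d) N) (hu : u ∈ box (0 : Site d) N)
    (hy : y ∈ box (0 : Site d) N) :
    Integrable (fun ω => max 0 (D ω x y - D ω x u - D ω u y)) P :=
  (integrable_const (0 : ℝ)).sup
    (((integrable_D h hx hy).sub (integrable_D h hx hu)).sub (integrable_D h hu hy))

theorem defect_le {x u y : Site d} (hx : x ∈ box (0 : Site d) N) (hu : u ∈ box (0 : Site d) N)
    (hy : y ∈ box (0 : Site d) N) :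
    ∫ ω, max 0 (D ω x y - D ω x u - D ω u y) ∂P ≤ 1 + C := by
  have h2 : Integrable (fun ω => (max 0 (D ω x y - D ω x u - D ω u y)) ^ 2) P := by
    have hb : Integrable (fun ω => 3 * (D ω x y ^ 2 + D ω x u ^ 2 + D ω u y ^ 2)) P :=
      (((h.int x hx y hy).add (h.int x hx u hu)).add (h.int u hu y hy)).const_mul 3
    refine hb.mono' ?_ (Filter.Eventually.of_forall fun ω => ?_)
    · exact ((measurable_const.max
        (((h.meas x y).sub (h.meas x u)).sub (h.meas u y))).pow_const 2).aestronglyMeasurable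
    · rw [Real.norm_eq_abs, abs_of_nonneg (sq_nonneg _)]
      have h3 : (max 0 (D ω x y - D ω x u - D ω u y)) ^ 2 ≤
          (D ω x y - D ω x u - D ω u y) ^ 2 := by
        rcases le_total (D ω x y - D ω x u - D ω u y) 0 with h4 | h4
        · rw [max_eq_left h4]
          simpa using sq_nonneg _
        · rw [max_eq_right h4]
      nlinarith [sq_nonneg (D ω x y + D ω x u), sq_nonneg (D ω x y + D ω u y),
        sq_nonneg (D ω x u - D ω u y)]
  calc ∫ ω, max 0 (D ω x y - D ω x u - D ω u y) ∂P ≤
        ∫ ω, (1 + (max 0 (D ω x y - D ω x u - D ω u y)) ^ 2) ∂P := by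
        refine integral_mono (defect_int h hx hu hy) ((integrable_const _).add h2) fun ω => ?_
        simp only
        nlinarith [sq_nonneg (max 0 (D ω x y - D ω x u - D ω u y) - 1),
          le_max_left 0 (D ω x y - D ω x u - D ω u y)]
    _ = 1 + ∫ ω, (max 0 (D ω x y - D ω x u - D ω u y)) ^ 2 ∂P := by
        rw [integral_add (integrable_const _) h2]
        simp
    _ ≤ _ := by
        have := h.tri x hx u hu y hy
        linarith

end

theorem shi : ShiStmt := by
  intro d K C hC hK
  refine ⟨2 * (1 + C * (K + 1) ^ 2) + 4 * (1 + C), by positivity, ?_⟩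
  intro N ℓ n hℓ hn Ω _ P _ D h a y k hy hk hbox
  have hℓ' : (1 : ℝ) ≤ ℓ := by exact_mod_cast hℓ
  have hn' : (1 : ℝ) ≤ n := by exact_mod_cast hn
  have hℓ0 : (0 : ℝ) < ℓ := by linarith
  have hn0 : (0 : ℝ) < n := by linarith
  set b : Site d := a + sm ℓ k with hb
  set c : Site d := a + sm (n * ℓ) y with hc
  set c' : Site d := b + sm (n * ℓ) y with hc'
  -- distances
  have hab : sd a b ≤ ℓ * K := by
    rw [hb, sd_add']
    exact (sd_sm _ _).trans (Nat.mul_le_mul_left _ hk)
  have hac : sd a c ≤ n * ℓ * K := by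
    rw [hc, sd_add']
    exact (sd_sm _ _).trans (Nat.mul_le_mul_left _ hy)
  have hbc' : sd b c' ≤ n * ℓ * K := by
    rw [hc', sd_add']
    exact (sd_sm _ _).trans (Nat.mul_le_mul_left _ hy)
  have hcc' : sd c c' ≤ ℓ * K := by
    have e : c' = c + sm ℓ k := by
      rw [hc', hb, hc]
      abel
    rw [e, sd_add']
    exact (sd_sm _ _).trans (Nat.mul_le_mul_left _ hk)
  have hlK : ℓ * K ≤ n * ℓ * K := by
    calc ℓ * K = 1 * (ℓ * K) := by ring
      _ ≤ n * (ℓ * K) := Nat.mul_le_mul_right _ hn
      _ = n * ℓ * K := by ring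
  have h4 : 4 * K * (n * ℓ) = 4 * (n * ℓ * K) := by ring
  have ha0 : a ∈ box (0 : Site d) N := hbox (by rw [mem_box, sd_self]; exact Nat.zero_le _)
  have hb0 : b ∈ box (0 : Site d) N := hbox (by rw [mem_box, h4]; omega)
  have hc0 : c ∈ box (0 : Site d) N := hbox (by rw [mem_box, h4]; omega)
  have hc0' : c' ∈ box (0 : Site d) N := hbox (by
    have := sd_triangle a b c'
    rw [mem_box, h4]
    omega)
  -- the four defects
  have key : ∀ ω, |D ω a c / (n * ℓ) - D ω b c' / (n * ℓ)| ≤
      ((|D ω a b| + |D ω c c'|) + ((max 0 (D ω a c - D ω a b - D ω b c) +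
        max 0 (D ω b c - D ω b c' - D ω c' c)) + (max 0 (D ω b c' - D ω b a - D ω a c') +
        max 0 (D ω a c' - D ω a c - D ω c c')))) / (n * ℓ) := by
    intro ω
    rw [← sub_div, abs_div, abs_of_pos (by positivity : (0 : ℝ) < n * ℓ)]
    refine div_le_div_of_nonneg_right ?_ (by positivity)
    have e1 := le_max_right 0 (D ω a c - D ω a b - D ω b c)
    have e2 := le_max_right 0 (D ω b c - D ω b c' - D ω c' c)
    have e3 := le_max_right 0 (D ω b c' - D ω b a - D ω a c')
    have e4 := le_max_right 0 (D ω a c' - D ω a c - D ω c c')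
    have f1 := le_max_left 0 (D ω a c - D ω a b - D ω b c)
    have f2 := le_max_left 0 (D ω b c - D ω b c' - D ω c' c)
    have f3 := le_max_left 0 (D ω b c' - D ω b a - D ω a c')
    have f4 := le_max_left 0 (D ω a c' - D ω a c - D ω c c')
    have s1 := h.symm ω b a
    have s2 := h.symm ω c' c
    have g1 := le_abs_self (D ω a b)
    have g2 := le_abs_self (D ω c c')
    rw [abs_le]
    constructor <;> linarith
  have i1 : Integrable (fun ω => |D ω a b| + |D ω c c'|) P :=
    (integrable_D h ha0 hb0).abs.add (integrable_D h hc0 hc0').abs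
  have i2 : Integrable (fun ω => max 0 (D ω a c - D ω a b - D ω b c) +
        max 0 (D ω b c - D ω b c' - D ω c' c)) P :=
    (defect_int h ha0 hb0 hc0).add (defect_int h hb0 hc0' hc0)
  have i3 : Integrable (fun ω => max 0 (D ω b c' - D ω b a - D ω a c') +
        max 0 (D ω a c' - D ω a c - D ω c c')) P :=
    (defect_int h hb0 ha0 hc0').add (defect_int h ha0 hc0 hc0')
  have i23 : Integrable (fun ω => (max 0 (D ω a c - D ω a b - D ω b c) +
        max 0 (D ω b c - D ω b c' - D ω c' c)) + (max 0 (D ω b c' - D ω b a - D ω a c') +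
        max 0 (D ω a c' - D ω a c - D ω c c'))) P := i2.add i3
  calc ∫ ω, |D ω a c / (n * ℓ) - D ω b c' / (n * ℓ)| ∂P ≤
        ∫ ω, ((|D ω a b| + |D ω c c'|) + ((max 0 (D ω a c - D ω a b - D ω b c) +
        max 0 (D ω b c - D ω b c' - D ω c' c)) + (max 0 (D ω b c' - D ω b a - D ω a c') +
        max 0 (D ω a c' - D ω a c - D ω c c')))) / (n * ℓ) ∂P :=
        integral_mono (((integrable_D h ha0 hc0).div_const _).sub
          ((integrable_D h hb0 hc0').div_const _)).abs ((i1.add i23).div_const _) key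
    _ = ((∫ ω, |D ω a b| ∂P + ∫ ω, |D ω c c'| ∂P) +
        ((∫ ω, max 0 (D ω a c - D ω a b - D ω b c) ∂P +
          ∫ ω, max 0 (D ω b c - D ω b c' - D ω c' c) ∂P) +
        (∫ ω, max 0 (D ω b c' - D ω b a - D ω a c') ∂P +
          ∫ ω, max 0 (D ω a c' - D ω a c - D ω c c') ∂P))) / (n * ℓ) := by
        rw [← integral_add (integrable_D h ha0 hb0).abs (integrable_D h hc0 hc0').abs,
          ← integral_add (defect_int h ha0 hb0 hc0) (defect_int h hb0 hc0' hc0),
          ← integral_add (defect_int h hb0 ha0 hc0') (defect_int h ha0 hc0 hc0'),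
          ← integral_add i2 i3, ← integral_add i1 i23, ← integral_div]
    _ ≤ ((ℓ * (1 + C * (K + 1) ^ 2) + ℓ * (1 + C * (K + 1) ^ 2)) +
        ((1 + C + (1 + C)) + (1 + C + (1 + C)))) / (n * ℓ) := by
        have w : ∀ x ∈ box (0 : Site d) N, ∀ z ∈ box (0 : Site d) N, sd x z ≤ ℓ * K →
            ∫ ω, |D ω x z| ∂P ≤ ℓ * (1 + C * (K + 1) ^ 2) := by
          intro x hx z hz hxz
          refine (abs_le_wt h hx hz hℓ0).trans ?_
          have h1 : (sd x z : ℝ) + 1 ≤ ℓ * (K + 1) := by
            have : (sd x z : ℝ) ≤ ℓ * K := by exact_mod_cast hxz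
            nlinarith
          have h2 : ((sd x z : ℝ) + 1) ^ 2 ≤ (ℓ * (K + 1)) ^ 2 :=
            pow_le_pow_left₀ (by positivity) h1 2
          calc (ℓ : ℝ) + C * ((sd x z : ℝ) + 1) ^ 2 / ℓ ≤ ℓ + C * (ℓ * (K + 1)) ^ 2 / ℓ := by
                gcongr
            _ = ℓ * (1 + C * (K + 1) ^ 2) := by
                field_simp
        have w1 := w a ha0 b hb0 hab
        have w2 := w c hc0 c' hc0' hcc'
        have w3 := defect_le h ha0 hb0 hc0
        have w4 := defect_le h hb0 hc0' hc0
        have w5 := defect_le h hb0 ha0 hc0'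
        have w6 := defect_le h ha0 hc0 hc0'
        refine div_le_div_of_nonneg_right ?_ (by positivity)
        linarith
    _ ≤ _ := by
        rw [div_le_div_iff₀ (by positivity) hn0]
        have : (1 + C + (1 + C) + (1 + C + (1 + C))) ≤ (4 * (1 + C)) * ℓ := by
          nlinarith
        have h5 : (ℓ * (1 + C * (K + 1) ^ 2) + ℓ * (1 + C * (K + 1) ^ 2)) +
            ((1 + C + (1 + C)) + (1 + C + (1 + C))) ≤
            (2 * (1 + C * (K + 1) ^ 2) + 4 * (1 + C)) * ℓ := by
          nlinarith
        calc _ ≤ ((2 * (1 + C * ((K : ℝ) + 1) ^ 2) + 4 * (1 + C)) * ℓ) * n :=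
              mul_le_mul_of_nonneg_right h5 hn0.le
          _ = _ := by ring

end Pool.Agent.LE.H69
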